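import Pool.Agent.T6.H87.CDL.Defs

/-!
# Project CDL, module CNT: counting the reducible classes
-/

set_option autoImplicit false

namespace Pool.Agent.T6.H87.CDL

namespace ModCNT

theorem tr_tr {α β γ : Type} (σ : α ≃ β) (τ : β ≃ γ) (r : α → α → Prop) :
    tr τ (tr σ r) = tr (σ.trans τ) r := rfl

theorem tr_symm {α β : Type} (σ : α ≃ β) (r : α → α → Prop) : tr σ.symm (tr σ r) = r := by
  funext x y
  simp [tr]

theorem tr_symm' {α β : Type} (σ : α ≃ β) (r : β → β → Prop) : tr σ (tr σ.symm r) = r := by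
  funext x y
  simp [tr]

theorem iso_refl {α : Type} (S : Set (α → α → Prop)) : Iso S S := by
  refine ⟨Equiv.refl α, ?_⟩
  ext p
  constructor
  · intro hp
    exact ⟨p, hp, rfl⟩
  · rintro ⟨q, hq, rfl⟩
    exact hq

theorem iso_symm {α β : Type} {S : Set (α → α → Prop)} {T : Set (β → β → Prop)} (h : Iso S T) :
    Iso T S := by
  obtain ⟨σ, rfl⟩ := h
  refine ⟨σ.symm, ?_⟩
  rw [Set.image_image]
  ext p
  constructor
  · intro hp
    exact ⟨p, hp, tr_symm σ p⟩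
  · rintro ⟨q, hq, rfl⟩
    change tr σ.symm (tr σ q) ∈ S
    rw [tr_symm]
    exact hq

theorem iso_trans {α β γ : Type} {S : Set (α → α → Prop)} {T : Set (β → β → Prop)}
    {U : Set (γ → γ → Prop)} (h : Iso S T) (h' : Iso T U) : Iso S U := by
  obtain ⟨σ, rfl⟩ := h
  obtain ⟨τ, rfl⟩ := h'
  refine ⟨σ.trans τ, ?_⟩
  rw [Set.image_image]
  rfl

theorem lin_tr {α β : Type} (σ : α ≃ β) {r : α → α → Prop} (h : Lin r) : Lin (tr σ r) := by
  obtain ⟨h1, h2, h3⟩ := h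
  refine ⟨fun a => h1 _, fun a b c hab hbc => h2 _ _ _ hab hbc, fun a b hab => h3 _ _ ?_⟩
  exact fun h => hab (σ.symm.injective h)

theorem isCD_tr {α β : Type} (σ : α ≃ β) {S : Set (α → α → Prop)} (h : IsCD S) :
    IsCD (tr σ '' S) := by
  obtain ⟨h1, h2⟩ := h
  refine ⟨?_, ?_⟩
  · rintro _ ⟨r, hr, rfl⟩
    exact lin_tr σ (h1 r hr)
  · rintro _ ⟨r, hr, rfl⟩ _ ⟨s, hs, rfl⟩ _ ⟨t, ht, rfl⟩ a b c hh
    exact h2 r hr s hs t ht _ _ _ hh

theorem isMax_tr {α β : Type} (σ : α ≃ β) {S : Set (α → α → Prop)} (h : IsMaxCD S) :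
    IsMaxCD (tr σ '' S) := by
  obtain ⟨h1, h2⟩ := h
  refine ⟨isCD_tr σ h1, fun T hT hST => ?_⟩
  have h3 := h2 (tr σ.symm '' T) (isCD_tr σ.symm hT) (by
    intro r hr
    exact ⟨tr σ r, hST ⟨r, hr, rfl⟩, tr_symm σ r⟩)
  intro t ht
  exact ⟨tr σ.symm t, h3 ⟨t, ht, rfl⟩, tr_symm' σ t⟩

theorem cls_eq {n : ℕ} {S T : Set (Fin n → Fin n → Prop)} (h : cls S = cls T) : Iso S T := by
  have h1 : T ∈ cls T := iso_refl T
  rw [← h] at h1
  exact h1

theorem tr_sub {α β α' β' : Type} (ρ : α ≃ α') (τ : β ≃ β') (x : α) (q : α → α → Prop)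
    (s : β → β → Prop) (hh : ∀ a : α, a ≠ x ↔ ρ a ≠ ρ x) :
    tr (Equiv.sumCongr (ρ.subtypeEquiv hh) τ) (sub x q s) = sub (ρ x) (tr ρ q) (tr τ s) := by
  funext u v
  rcases u with u | u <;> rcases v with v | v
  · rfl
  · change q (ρ.symm u) x = q (ρ.symm u) (ρ.symm (ρ x))
    rw [ρ.symm_apply_apply]
  · change q x (ρ.symm v) = q (ρ.symm (ρ x)) (ρ.symm v)
    rw [ρ.symm_apply_apply]
  · rfl

theorem iso_subst {α β α' β' : Type} (ρ : α ≃ α') (τ : β ≃ β') (x : α) (R : Set (α → α → Prop))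
    (R' : Set (β → β → Prop)) : Iso (subst x R R') (subst (ρ x) (tr ρ '' R) (tr τ '' R')) := by
  have hh : ∀ a : α, a ≠ x ↔ ρ a ≠ ρ x := fun a => (ρ.injective.ne_iff).symm
  refine ⟨Equiv.sumCongr (ρ.subtypeEquiv hh) τ, ?_⟩
  ext p
  constructor
  · rintro ⟨_, ⟨q, hq, rfl⟩, _, ⟨s, hs, rfl⟩, rfl⟩
    exact ⟨sub x q s, ⟨q, hq, s, hs, rfl⟩, tr_sub ρ τ x q s hh⟩
  · rintro ⟨_, ⟨q, hq, s, hs, rfl⟩, rfl⟩
    exact ⟨tr ρ q, ⟨q, hq, rfl⟩, tr τ s, ⟨s, hs, rfl⟩, tr_sub ρ τ x q s hh⟩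

open Classical in
/-- a representative of the class -/
noncomputable def rep {l : ℕ} (K : Set (Set (Fin l → Fin l → Prop))) :
    Set (Fin l → Fin l → Prop) :=
  if h : K ∈ mCls l then h.choose else ∅

theorem rep_spec {l : ℕ} {S : Set (Fin l → Fin l → Prop)} (hS : IsMaxCD S) :
    Iso (rep (cls S)) S := by
  have h : cls S ∈ mCls l := ⟨S, hS, rfl⟩
  unfold rep
  rw [dif_pos h]
  exact iso_symm (cls_eq h.choose_spec.2)

/-- the classes of the domains obtained by a substitution -/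
noncomputable def F (n k l : ℕ) (p : Set (Set (Fin l → Fin l → Prop)) × Fin l ×
    Set (Set (Fin k → Fin k → Prop))) : Set (Set (Fin n → Fin n → Prop)) :=
  {T | Iso (subst p.2.1 (rep p.1) (rep p.2.2)) T}

/-- the arguments -/
def D (k l : ℕ) : Set (Set (Set (Fin l → Fin l → Prop)) × Fin l ×
    Set (Set (Fin k → Fin k → Prop))) :=
  mCls l ×ˢ ((Set.univ : Set (Fin l)) ×ˢ mCls k)

theorem card_D (k l : ℕ) : (D k l).ncard = l * m l * m k := by
  unfold D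
  rw [Set.ncard_prod, Set.ncard_prod, Set.ncard_univ, Nat.card_fin]
  change m l * (l * m k) = _
  ring

theorem cover (hD : StmDEC) (n : ℕ) :
    rCls n ⊆ ⋃ k ∈ Finset.Ico 2 n, F n k (n - k + 1) '' D k (n - k + 1) := by
  classical
  rintro _ ⟨S, hS, ⟨B, hB1, hB2, hB3⟩, rfl⟩
  obtain ⟨b, hb⟩ := hB2.nonempty
  obtain ⟨h1, h2, h3⟩ := hD (Fin n) S inferInstance hS B hB1 hB3 b hb
  have hk2 : 2 ≤ B.ncard := by
    have := (Set.one_lt_ncard_iff_nontrivial (s := B)).2 hB2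
    omega
  have hkn : B.ncard < n := by
    have := Set.ncard_lt_card (s := B) (by simpa using hB1)
    simpa using this
  have hA : Nat.card ({a | a ∉ B ∨ a = b} : Set (Fin n)) = n - B.ncard + 1 := by
    rw [Nat.card_coe_set_eq]
    have e1 : ({a | a ∉ B ∨ a = b} : Set (Fin n)) = insert b Bᶜ := by
      ext a
      simp only [Set.mem_ofPred_eq, Set.mem_insert_iff, Set.mem_compl_iff]
      tauto
    rw [e1, Set.ncard_insert_of_notMem (by simpa using hb) (Set.toFinite _), Set.ncard_compl,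
      Nat.card_fin]
  have hBk : Nat.card B = B.ncard := Nat.card_coe_set_eq B
  obtain ⟨k, hk⟩ : ∃ k, k = B.ncard := ⟨_, rfl⟩
  rw [← hk] at hk2 hkn hA hBk
  obtain ⟨l, hl⟩ : ∃ l, l = n - k + 1 := ⟨_, rfl⟩
  have σ : ({a | a ∉ B ∨ a = b} : Set (Fin n)) ≃ Fin l :=
    (Finite.equivFinOfCardEq (by rw [hA, hl]))
  have τ : B ≃ Fin k := Finite.equivFinOfCardEq hBk
  have m1 := isMax_tr σ h1
  have m2 := isMax_tr τ h2
  obtain ⟨A0, hA0⟩ : ∃ A0, A0 = cls (tr σ '' restr {a | a ∉ B ∨ a = b} S) := ⟨_, rfl⟩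
  obtain ⟨B0, hB0⟩ : ∃ B0, B0 = cls (tr τ '' restr B S) := ⟨_, rfl⟩
  have i1 : Iso (rep A0) (restr {a | a ∉ B ∨ a = b} S) := by
    rw [hA0]
    exact iso_trans (rep_spec m1) (iso_symm ⟨σ, rfl⟩)
  have i2 : Iso (rep B0) (restr B S) := by
    rw [hB0]
    exact iso_trans (rep_spec m2) (iso_symm ⟨τ, rfl⟩)
  obtain ⟨ρ, hρ⟩ := i1
  obtain ⟨ρ', hρ'⟩ := i2
  have i3 := iso_subst ρ ρ' (ρ.symm ⟨b, Or.inr rfl⟩) (rep A0) (rep B0)
  rw [← hρ, ← hρ', ρ.apply_symm_apply] at i3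
  have i4 := iso_trans i3 h3
  refine Set.mem_biUnion (x := k) (by simp [hk2, hkn]) ?_
  rw [← hl]
  refine ⟨(A0, ρ.symm ⟨b, Or.inr rfl⟩, B0), ⟨⟨_, m1, hA0⟩, Set.mem_univ _, ⟨_, m2, hB0⟩⟩, ?_⟩
  ext T
  exact ⟨fun h => iso_trans (iso_symm i4) h, fun h => iso_trans i4 h⟩

theorem ncard_biUnion {α : Type} (s : Finset ℕ) (f : ℕ → Set α) :
    (⋃ k ∈ s, f k).ncard ≤ ∑ k ∈ s, (f k).ncard := by
  classical
  induction s using Finset.induction_on with
  | empty => simp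
  | insert a s ha ih =>
    rw [Finset.set_biUnion_insert, Finset.sum_insert ha]
    exact (Set.ncard_union_le _ _).trans (Nat.add_le_add_left ih _)

end ModCNT

open ModCNT in
theorem cnt (_hS : StmSUB) (hD : StmDEC) : StmCNT := by
  intro n
  unfold r
  refine (Set.ncard_le_ncard (cover hD n) (Set.toFinite _)).trans
    ((ncard_biUnion _ _).trans (Finset.sum_le_sum fun k _ => ?_))
  refine (Set.ncard_image_le (Set.toFinite _)).trans ?_
  rw [card_D]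

end Pool.Agent.T6.H87.CDL
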