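import Pool.Agent.T6.H87.CDL.Defs

/-! Project CDL, module DEC: decomposition of a maximal Condorcet domain along a block. -/

namespace Pool.Agent.T6.H87.CDL

theorem exists_lin (α : Type) : ∃ r : α → α → Prop, Lin r := by
  refine ⟨WellOrderingRel, fun a => irrefl a, fun a b c => _root_.trans, fun a b hab => ?_⟩
  rcases trichotomous_of (WellOrderingRel (α := α)) a b with h | h | h
  · exact Or.inl h
  · exact absurd h hab
  · exact Or.inr h

theorem nonempty_of_max {α : Type} {S : Set (α → α → Prop)} (hS : IsMaxCD S) : S.Nonempty := by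
  by_contra h
  have h0 : S = ∅ := Set.not_nonempty_iff_eq_empty.mp h
  obtain ⟨r, hr⟩ := exists_lin α
  have h1 : IsCD ({r} : Set (α → α → Prop)) := by
    refine ⟨?_, ?_⟩
    · rintro _ rfl
      exact hr
    · rintro _ rfl _ rfl _ rfl a b c ⟨⟨h1, h2⟩, ⟨-, h3⟩, -⟩
      exact hr.1 a (hr.2.1 _ _ _ h1 (hr.2.1 _ _ _ h2 h3))
  have h2 := hS.2 {r} h1 (by rw [h0]; exact Set.empty_subset _)
  exact h ⟨r, h2 rfl⟩

theorem isCD_restr {α : Type} {S : Set (α → α → Prop)} (hS : IsCD S) (A : Set α) :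
    IsCD (restr A S) := by
  refine ⟨?_, ?_⟩
  · rintro _ ⟨q, hq, rfl⟩
    obtain ⟨h1, h2, h3⟩ := hS.1 q hq
    exact ⟨fun a => h1 _, fun a b c => h2 _ _ _, fun a b hab => h3 _ _ fun h => hab (Subtype.ext h)⟩
  · rintro _ ⟨q1, hq1, rfl⟩ _ ⟨q2, hq2, rfl⟩ _ ⟨q3, hq3, rfl⟩ a b c h
    exact hS.2 q1 hq1 q2 hq2 q3 hq3 _ _ _ h

theorem isCD_tr {α β : Type} {S : Set (α → α → Prop)} (hS : IsCD S) (σ : α ≃ β) :
    IsCD (tr σ '' S) := by
  refine ⟨?_, ?_⟩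
  · rintro _ ⟨q, hq, rfl⟩
    obtain ⟨h1, h2, h3⟩ := hS.1 q hq
    exact ⟨fun a => h1 _, fun a b c => h2 _ _ _,
      fun a b hab => h3 _ _ fun h => hab (σ.symm.injective h)⟩
  · rintro _ ⟨q1, hq1, rfl⟩ _ ⟨q2, hq2, rfl⟩ _ ⟨q3, hq3, rfl⟩ a b c h
    exact hS.2 q1 hq1 q2 hq2 q3 hq3 _ _ _ h

theorem subst_mono {α β : Type} {x : α} {S S' : Set (α → α → Prop)} {T T' : Set (β → β → Prop)}
    (h1 : S ⊆ S') (h2 : T ⊆ T') : subst x S T ⊆ subst x S' T' := by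
  rintro _ ⟨q, hq, s, hs, rfl⟩
  exact ⟨q, h1 hq, s, h2 hs, rfl⟩

section

variable {α : Type} {B : Set α} {b : α}

open Classical in
/-- the natural equivalence -/
noncomputable def ev (B : Set α) (b : α) (hb : b ∈ B) :
    ({u : {a | a ∉ B ∨ a = b} // u ≠ (⟨b, Or.inr rfl⟩ : {a | a ∉ B ∨ a = b})} ⊕ B) ≃ α where
  toFun
    | .inl u => u.1.1
    | .inr v => v.1
  invFun a := if h : a ∈ B then .inr ⟨a, h⟩ else
    .inl ⟨⟨a, Or.inl h⟩, fun h' => h (by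
      have := congrArg Subtype.val h'
      simp only at this
      rw [this]; exact hb)⟩
  left_inv := by
    rintro (u | v)
    · have h : u.1.1 ∉ B := by
        rcases u.1.2 with h | h
        · exact h
        · exact absurd (Subtype.ext h) u.2
      simp only [dif_neg h]
    · simp only [dif_pos v.2]
  right_inv := by
    intro a
    by_cases h : a ∈ B
    · simp only [dif_pos h]
    · simp only [dif_neg h]

theorem notMem_of_ne (u : {u : {a | a ∉ B ∨ a = b} // u ≠ (⟨b, Or.inr rfl⟩ : {a | a ∉ B ∨ a = b})}) :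
    u.1.1 ∉ B := by
  rcases u.1.2 with h | h
  · exact h
  · exact absurd (Subtype.ext h) u.2

theorem tr_sub {hb : b ∈ B} {q : α → α → Prop} (hq : Lin q)
    (hB : ∀ a ∈ B, ∀ b ∈ B, ∀ x, x ∉ B → ¬ (q a x ∧ q x b)) :
    tr (ev B b hb) (sub (⟨b, Or.inr rfl⟩ : {a | a ∉ B ∨ a = b}) (fun u v => q u.1 v.1)
      (fun u v : B => q u.1 v.1)) = q := by
  have key : ∀ X Y, sub (⟨b, Or.inr rfl⟩ : {a | a ∉ B ∨ a = b}) (fun u v => q u.1 v.1)
      (fun u v : B => q u.1 v.1) X Y ↔ q (ev B b hb X) (ev B b hb Y) := by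
    rintro (u | u) (v | v)
    · exact Iff.rfl
    · change q u.1.1 b ↔ q u.1.1 v.1
      have hu := notMem_of_ne u
      constructor
      · intro h
        rcases hq.2.2 u.1.1 v.1 (fun h' => hu (by rw [h']; exact v.2)) with h1 | h1
        · exact h1
        · exact absurd ⟨h1, h⟩ (hB v.1 v.2 b hb _ hu)
      · intro h
        rcases hq.2.2 u.1.1 b (fun h' => hu (by rw [h']; exact hb)) with h1 | h1
        · exact h1
        · exact absurd ⟨h1, h⟩ (hB b hb v.1 v.2 _ hu)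
    · change q b v.1.1 ↔ q u.1 v.1.1
      have hv := notMem_of_ne v
      constructor
      · intro h
        rcases hq.2.2 u.1 v.1.1 (fun h' => hv (by rw [← h']; exact u.2)) with h1 | h1
        · exact h1
        · exact absurd ⟨h, h1⟩ (hB b hb u.1 u.2 _ hv)
      · intro h
        rcases hq.2.2 b v.1.1 (fun h' => hv (by rw [← h']; exact hb)) with h1 | h1
        · exact h1
        · exact absurd ⟨h, h1⟩ (hB u.1 u.2 b hb _ hv)
    · exact Iff.rfl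
  funext x y
  apply propext
  have := key ((ev B b hb).symm x) ((ev B b hb).symm y)
  rw [Equiv.apply_symm_apply, Equiv.apply_symm_apply] at this
  exact this

theorem restr_A {hb : b ∈ B} {q : {a | a ∉ B ∨ a = b} → {a | a ∉ B ∨ a = b} → Prop} {s : B → B → Prop}
    (hq : Lin q) (hs : Lin s) :
    (fun u v : {a | a ∉ B ∨ a = b} => tr (ev B b hb) (sub (⟨b, Or.inr rfl⟩ : {a | a ∉ B ∨ a = b}) q s) u.1 v.1) = q := by
  have h1 : ∀ u : {u : {a | a ∉ B ∨ a = b} // u ≠ (⟨b, Or.inr rfl⟩ : {a | a ∉ B ∨ a = b})},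
      (ev B b hb).symm u.1.1 = .inl u := by
    intro u
    rw [Equiv.symm_apply_eq]
    rfl
  have h2 : (ev B b hb).symm b = .inr ⟨b, hb⟩ := by
    rw [Equiv.symm_apply_eq]
    rfl
  funext u v
  apply propext
  unfold tr
  by_cases hu : u = ⟨b, Or.inr rfl⟩
  · by_cases hv : v = ⟨b, Or.inr rfl⟩
    · subst hu; subst hv
      simp only [h2]
      exact iff_of_false (hs.1 _) (hq.1 _)
    · subst hu
      rw [h1 ⟨v, hv⟩]
      simp only [h2]
      exact Iff.rfl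
  · by_cases hv : v = ⟨b, Or.inr rfl⟩
    · subst hv
      rw [h1 ⟨u, hu⟩]
      simp only [h2]
      exact Iff.rfl
    · rw [h1 ⟨u, hu⟩, h1 ⟨v, hv⟩]
      exact Iff.rfl

theorem restr_B {hb : b ∈ B} {q : {a | a ∉ B ∨ a = b} → {a | a ∉ B ∨ a = b} → Prop} {s : B → B → Prop} :
    (fun u v : B => tr (ev B b hb) (sub (⟨b, Or.inr rfl⟩ : {a | a ∉ B ∨ a = b}) q s) u.1 v.1) = s := by
  have h1 : ∀ u : B, (ev B b hb).symm u.1 = .inr u := by
    intro u
    rw [Equiv.symm_apply_eq]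
    rfl
  funext u v
  unfold tr
  rw [h1 u, h1 v]
  rfl

end

theorem dec (h : StmSUB) : StmDEC := by
  intro α S _ hS B _ hB b hb
  obtain ⟨r0, hr0⟩ := nonempty_of_max hS
  have hA := isCD_restr hS.1 {a | a ∉ B ∨ a = b}
  have hBr := isCD_restr hS.1 B
  have hsub : S ⊆ tr (ev B b hb) '' subst (⟨b, Or.inr rfl⟩ : {a | a ∉ B ∨ a = b})
      (restr {a | a ∉ B ∨ a = b} S) (restr B S) := by
    intro q hq
    exact ⟨_, ⟨_, ⟨q, hq, rfl⟩, _, ⟨q, hq, rfl⟩, rfl⟩, tr_sub (hS.1.1 q hq) (hB q hq)⟩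
  refine ⟨⟨hA, ?_⟩, ⟨hBr, ?_⟩, ev B b hb, ?_⟩
  · intro C1 hC1 hle q1 hq1
    have h1 := hS.2 _ (isCD_tr (h _ _ (⟨b, Or.inr rfl⟩ : {a | a ∉ B ∨ a = b}) C1 (restr B S) hC1 hBr)
      (ev B b hb)) (hsub.trans (Set.image_mono (subst_mono hle subset_rfl)))
    have h2 := h1 ⟨_, ⟨q1, hq1, _, ⟨r0, hr0, rfl⟩, rfl⟩, rfl⟩
    exact ⟨_, h2, (restr_A (hC1.1 q1 hq1) (hBr.1 _ ⟨r0, hr0, rfl⟩)).symm⟩
  · intro C2 hC2 hle s hs
    have h1 := hS.2 _ (isCD_tr (h _ _ (⟨b, Or.inr rfl⟩ : {a | a ∉ B ∨ a = b})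
      (restr {a | a ∉ B ∨ a = b} S) C2 hA hC2)
      (ev B b hb)) (hsub.trans (Set.image_mono (subst_mono subset_rfl hle)))
    have h2 := h1 ⟨_, ⟨_, ⟨r0, hr0, rfl⟩, s, hs, rfl⟩, rfl⟩
    exact ⟨_, h2, restr_B.symm⟩
  · exact Set.Subset.antisymm hsub (hS.2 _ (isCD_tr (h _ _ _ _ _ hA hBr) (ev B b hb)) hsub)

end Pool.Agent.T6.H87.CDL
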