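import Pool.Agent.T6.H87.CDL.Defs

/-!
Project CDL (helper87), MP_dda9b2_co, module FAM (helper82): the family consists of Condorcet
domains.
-/

set_option autoImplicit false

namespace Pool.Agent.T6.H87.CDL

namespace ModFAM

variable {M J : ℕ}

/-- the rank functions of the family -/
def IsF (s : Fin M → Fin J → Bool) (f : Alt M J → ℕ) : Prop :=
  (∃ j β, f = rkB j β) ∨ ∃ i j, f = rkM i j (s i j)

theorem inj_B (j : Fin J) (β : Bool) {u v : Alt M J} (h : rkB j β u = rkB j β v) : u = v := by
  rcases u with z | ⟨k, t⟩ <;> rcases v with z' | ⟨l, w⟩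
  · simp only [rkB] at h
    exact congrArg Sum.inl (Fin.ext (by omega))
  · exfalso
    have := z.isLt
    simp only [rkB] at h
    split_ifs at h <;> omega
  · exfalso
    have := z'.isLt
    simp only [rkB] at h
    split_ifs at h <;> omega
  · have hk : k = l := by
      simp only [rkB] at h
      split_ifs at h with h1 h2 h3 h4 h5 h6 h7 h8 h9 h10 <;>
        first
        | exact h1.trans (by assumption : l = j).symm
        | omega
        | exact Fin.ext (by omega)
    subst hk
    have ht : t = w := by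
      simp only [rkB] at h
      cases t <;> cases w <;> cases β <;> simp at h ⊢ <;> split_ifs at h <;> omega
    rw [ht]

theorem inj_M (i : Fin M) (j : Fin J) (β : Bool) {u v : Alt M J}
    (h : rkM i j β u = rkM i j β v) : u = v := by
  rcases u with z | ⟨k, t⟩ <;> rcases v with z' | ⟨l, w⟩
  · have h1 := z.isLt
    have h2 := z'.isLt
    simp only [rkM] at h
    refine congrArg Sum.inl (Fin.ext ?_)
    by_cases e1 : z = i
    · by_cases e2 : z' = i
      · rw [e1, e2]
      · exfalso
        rw [if_pos e1, if_neg e2] at h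
        split_ifs at h <;> omega
    · by_cases e2 : z' = i
      · exfalso
        rw [if_neg e1, if_pos e2] at h
        split_ifs at h <;> omega
      · rw [if_neg e1, if_neg e2] at h
        omega
  · exfalso
    have := z.isLt
    simp only [rkM] at h
    split_ifs at h <;> omega
  · exfalso
    have := z'.isLt
    simp only [rkM] at h
    split_ifs at h <;> omega
  · exact inj_B (M := M) j β (by simpa only [rkM, rkB] using h)

theorem IsF.inj {s : Fin M → Fin J → Bool} {f : Alt M J → ℕ} (hf : IsF s f) {u v : Alt M J}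
    (h : f u = f v) : u = v := by
  rcases hf with ⟨j, β, rfl⟩ | ⟨i, j, rfl⟩
  · exact inj_B j β h
  · exact inj_M i j _ h

theorem IsF.lin {s : Fin M → Fin J → Bool} {f : Alt M J → ℕ} (hf : IsF s f) : Lin (ofRk f) := by
  refine ⟨fun a => lt_irrefl _, fun a b c h1 h2 => lt_trans h1 h2, fun a b hab => ?_⟩
  rcases lt_trichotomy (f a) (f b) with h | h | h
  · exact Or.inl h
  · exact absurd (hf.inj h) hab
  · exact Or.inr h

/-- three `z`: the first one is not in the middle -/
theorem lA {s : Fin M → Fin J → Bool} {f : Alt M J → ℕ} (hf : IsF s f) {x y z : Fin M}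
    (hx : z < x) (hy : z < y) (h : f (.inl x) < f (.inl z) ∧ f (.inl z) < f (.inl y)) : False := by
  have h1 := x.isLt
  have h2 := y.isLt
  have h3 := z.isLt
  rw [Fin.lt_def] at hx hy
  rcases hf with ⟨j, β, rfl⟩ | ⟨i, j, rfl⟩
  · simp only [rkB] at h
    omega
  · simp only [rkM, Fin.ext_iff] at h
    split_ifs at h <;> omega

/-- two `z` and another point `w`: `w` is not on top -/
theorem lB {s : Fin M → Fin J → Bool} {f : Alt M J → ℕ} (hf : IsF s f) {x y : Fin M}
    (hxy : x ≠ y) (w : Fin J × Bool) (h : f (.inr w) < f (.inl x) ∧ f (.inr w) < f (.inl y)) :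
    False := by
  obtain ⟨k, t⟩ := w
  have h1 := x.isLt
  have h2 := y.isLt
  rw [Ne, Fin.ext_iff] at hxy
  rcases hf with ⟨j, β, rfl⟩ | ⟨i, j, rfl⟩
  · simp only [rkB] at h
    split_ifs at h <;> omega
  · simp only [rkM, Fin.ext_iff] at h
    split_ifs at h <;> omega

/-- one `z` and two points of different pairs: `z` is not at the bottom -/
theorem lC1 {s : Fin M → Fin J → Bool} {f : Alt M J → ℕ} (hf : IsF s f) {z : Fin M}
    {k l : Fin J} (hkl : k ≠ l) (t u : Bool)
    (h : f (.inr (k, t)) < f (.inl z) ∧ f (.inr (l, u)) < f (.inl z)) : False := by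
  have h1 := z.isLt
  rw [Ne, Fin.ext_iff] at hkl
  rcases hf with ⟨j, β, rfl⟩ | ⟨i, j, rfl⟩
  · simp only [rkB, Fin.ext_iff] at h
    split_ifs at h <;> omega
  · simp only [rkM, Fin.ext_iff] at h
    split_ifs at h <;> omega

/-- `z_i` and the pair `k`: the point different from `s i k` is not on top -/
theorem lC2 {s : Fin M → Fin J → Bool} {f : Alt M J → ℕ} (hf : IsF s f) {z : Fin M}
    {k : Fin J} {t u : Bool} (htu : t ≠ u) (ht : t ≠ s z k)
    (h : f (.inr (k, t)) < f (.inl z) ∧ f (.inr (k, t)) < f (.inr (k, u))) : False := by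
  have h1 := z.isLt
  have hu : u = s z k := by
    cases t <;> cases u <;> cases h2 : s z k <;> simp_all
  rcases hf with ⟨j, β, rfl⟩ | ⟨i, j, rfl⟩
  · simp only [rkB] at h
    split_ifs at h <;> omega
  · by_cases e : z = i
    · subst e
      by_cases e2 : k = j
      · subst e2
        simp only [rkM, if_true, if_neg ht, if_pos hu] at h
        omega
      · simp only [rkM, if_true, if_neg e2] at h
        split_ifs at h <;> omega
    · simp only [rkM] at h
      rw [if_neg e] at h
      split_ifs at h <;> omega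

/-- points of three different pairs: the one of the first pair is not at the bottom -/
theorem lD1 {s : Fin M → Fin J → Bool} {f : Alt M J → ℕ} (hf : IsF s f)
    {k l m : Fin J} (hkl : k < l) (hkm : k < m) (hlm : l ≠ m) (t u v : Bool)
    (h : f (.inr (l, u)) < f (.inr (k, t)) ∧ f (.inr (m, v)) < f (.inr (k, t))) : False := by
  rw [Ne, Fin.ext_iff] at hlm
  rw [Fin.lt_def] at hkl hkm
  rcases hf with ⟨j, β, rfl⟩ | ⟨i, j, rfl⟩
  · simp only [rkB, Fin.ext_iff] at h
    split_ifs at h <;> omega
  · simp only [rkM, Fin.ext_iff] at h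
    split_ifs at h <;> omega

/-- a pair and a point of another pair: this point is not in the middle -/
theorem lD2 {s : Fin M → Fin J → Bool} {f : Alt M J → ℕ} (hf : IsF s f)
    {k l : Fin J} (hkl : k ≠ l) (t u v : Bool)
    (h : f (.inr (k, t)) < f (.inr (l, u)) ∧ f (.inr (l, u)) < f (.inr (k, v))) : False := by
  rw [Ne, Fin.ext_iff] at hkl
  rcases hf with ⟨j, β, rfl⟩ | ⟨i, j, rfl⟩
  · simp only [rkB, Fin.ext_iff] at h
    split_ifs at h <;> omega
  · simp only [rkM, Fin.ext_iff] at h
    split_ifs at h <;> omega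

/-- a point of a pair above another one: they are different -/
theorem ne_of {f : Alt M J → ℕ} {u v : Alt M J} (h : f u < f v) : u ≠ v := by
  rintro rfl
  exact lt_irrefl _ h

/-- the case of one `z` and two other points, in cyclic order `z, x, y` -/
theorem one {s : Fin M → Fin J → Bool} {f g h : Alt M J → ℕ} (hf : IsF s f) (hg : IsF s g)
    (hh : IsF s h) {z : Fin M} {x y : Fin J × Bool}
    (f1 : f (.inl z) < f (.inr x)) (f2 : f (.inr x) < f (.inr y))
    (g1 : g (.inr x) < g (.inr y)) (g2 : g (.inr y) < g (.inl z))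
    (h1 : h (.inr y) < h (.inl z)) (h2 : h (.inl z) < h (.inr x)) : False := by
  obtain ⟨k, t⟩ := x
  obtain ⟨l, u⟩ := y
  by_cases hkl : k = l
  · subst hkl
    have htu : t ≠ u := by
      rintro rfl
      exact lt_irrefl _ f2
    by_cases ht : t = s z k
    · have hu : u ≠ s z k := by
        rintro rfl
        exact htu ht
      exact lC2 hh htu.symm hu ⟨h1, h1.trans h2⟩
    · exact lC2 hg htu ht ⟨g1.trans g2, g1⟩
  · exact lC1 hg hkl t u ⟨g1.trans g2, g2⟩

/-- the case of three points of pairs -/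
theorem zero {s : Fin M → Fin J → Bool} {f g h : Alt M J → ℕ} (hf : IsF s f) (hg : IsF s g)
    (hh : IsF s h) {a b c : Fin J × Bool}
    (f1 : f (.inr a) < f (.inr b)) (f2 : f (.inr b) < f (.inr c))
    (g1 : g (.inr b) < g (.inr c)) (g2 : g (.inr c) < g (.inr a))
    (h1 : h (.inr c) < h (.inr a)) (h2 : h (.inr a) < h (.inr b)) : False := by
  obtain ⟨k, t⟩ := a
  obtain ⟨l, u⟩ := b
  obtain ⟨m, v⟩ := c
  by_cases e1 : k = l
  · subst e1
    by_cases e2 : k = m
    · subst e2
      have n1 : t ≠ u := by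
        rintro rfl
        exact lt_irrefl _ f1
      have n2 : u ≠ v := by
        rintro rfl
        exact lt_irrefl _ f2
      have n3 : v ≠ t := by
        rintro rfl
        exact lt_irrefl _ g2
      revert n1 n2 n3
      cases t <;> cases u <;> cases v <;> simp
    · -- `c` of another pair: in the middle in `g`
      exact lD2 hg e2 u v t ⟨g1, g2⟩
  · by_cases e2 : k = m
    · subst e2
      -- `b` of another pair: in the middle in `f`
      exact lD2 hf e1 t u v ⟨f1, f2⟩
    · by_cases e3 : l = m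
      · subst e3
        -- `a` of another pair: in the middle in `h`
        exact lD2 hh (fun e => e1 e.symm) v t u ⟨h1, h2⟩
      · -- three different pairs
        rcases lt_or_gt_of_ne e1 with c1 | c1
        · rcases lt_or_gt_of_ne e2 with c2 | c2
          · -- `k` is the first: bottom in `g`
            exact lD1 hg c1 c2 e3 t u v ⟨g1.trans g2, g2⟩
          · -- `m < k < l`: `m` bottom in `f`
            exact lD1 hf c2 (c2.trans c1) e1 v t u ⟨f1.trans f2, f2⟩
        · rcases lt_or_gt_of_ne e3 with c3 | c3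
          · -- `l` is the first: bottom in `h`
            exact lD1 hh c3 c1 (fun e => e2 e.symm) u v t ⟨h1.trans h2, h2⟩
          · -- `m < l < k`
            exact lD1 hf (c3.trans c1) c3 e1 v t u ⟨f1.trans f2, f2⟩

/-- the case of three `z` -/
theorem three {s : Fin M → Fin J → Bool} {f g h : Alt M J → ℕ} (hf : IsF s f) (hg : IsF s g)
    (hh : IsF s h) {a b c : Fin M}
    (f1 : f (.inl a) < f (.inl b)) (f2 : f (.inl b) < f (.inl c))
    (g1 : g (.inl b) < g (.inl c)) (g2 : g (.inl c) < g (.inl a))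
    (h1 : h (.inl c) < h (.inl a)) (h2 : h (.inl a) < h (.inl b)) : False := by
  have e1 : a ≠ b := by
    rintro rfl
    exact lt_irrefl _ f1
  have e2 : a ≠ c := by
    rintro rfl
    exact lt_irrefl _ g2
  have e3 : b ≠ c := by
    rintro rfl
    exact lt_irrefl _ f2
  rcases lt_or_gt_of_ne e1 with c1 | c1
  · rcases lt_or_gt_of_ne e2 with c2 | c2
    · exact lA hh c2 c1 ⟨h1, h2⟩
    · exact lA hg (c2.trans c1) c2 ⟨g1, g2⟩
  · rcases lt_or_gt_of_ne e3 with c3 | c3
    · exact lA hf c1 c3 ⟨f1, f2⟩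
    · exact lA hg c3 (c3.trans c1) ⟨g1, g2⟩

theorem noLatin {s : Fin M → Fin J → Bool} {f g h : Alt M J → ℕ} (hf : IsF s f) (hg : IsF s g)
    (hh : IsF s h) (a b c : Alt M J) (f1 : f a < f b) (f2 : f b < f c) (g1 : g b < g c)
    (g2 : g c < g a) (h1 : h c < h a) (h2 : h a < h b) : False := by
  rcases a with a | a <;> rcases b with b | b <;> rcases c with c | c
  · exact three hf hg hh f1 f2 g1 g2 h1 h2
  · -- `c` on top in `h`
    exact lB hh (fun e : a = b => by
      rw [e] at f1
      exact lt_irrefl _ f1) c ⟨h1, h1.trans h2⟩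
  · -- `b` on top in `g`
    exact lB hg (fun e : c = a => by
      rw [e] at g2
      exact lt_irrefl _ g2) b ⟨g1, g1.trans g2⟩
  · exact one hf hg hh f1 f2 g1 g2 h1 h2
  · -- `a` on top in `f`
    exact lB hf (fun e : b = c => by
      rw [e] at f2
      exact lt_irrefl _ f2) a ⟨f1, f1.trans f2⟩
  · exact one hg hh hf g1 g2 h1 h2 f1 f2
  · exact one hh hf hg h1 h2 f1 f2 g1 g2
  · exact zero hf hg hh f1 f2 g1 g2 h1 h2

end ModFAM

open ModFAM in
/-- FAM -/
theorem fam_cd : StmFAM := by
  intro M J s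
  have key : ∀ p ∈ fam s, ∃ f : Alt M J → ℕ, IsF s f ∧ p = ofRk f := by
    rintro p (⟨j, β, rfl⟩ | ⟨i, j, rfl⟩)
    · exact ⟨_, Or.inl ⟨j, β, rfl⟩, rfl⟩
    · exact ⟨_, Or.inr ⟨i, j, rfl⟩, rfl⟩
  refine ⟨?_, ?_⟩
  · intro p hp
    obtain ⟨f, hf, rfl⟩ := key p hp
    exact hf.lin
  · intro p hp q hq t ht a b c
    obtain ⟨f, hf, rfl⟩ := key p hp
    obtain ⟨g, hg, rfl⟩ := key q hq
    obtain ⟨h, hh, rfl⟩ := key t ht
    rintro ⟨⟨f1, f2⟩, ⟨g1, g2⟩, ⟨h1, h2⟩⟩
    exact noLatin hf hg hh a b c f1 f2 g1 g2 h1 h2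

end Pool.Agent.T6.H87.CDL
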