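import Pool.Agent.T6.H87.CDL.Defs

/-! Project CDL: module LOW. -/

set_option autoImplicit false

namespace Pool.Agent.T6.H87.CDL

open Finset

namespace ModLOW

theorem isCD_tr {α β : Type} (σ : α ≃ β) (S : Set (α → α → Prop)) (h : IsCD S) :
    IsCD (tr σ '' S) := by
  refine ⟨?_, ?_⟩
  · rintro r ⟨q, hq, rfl⟩
    obtain ⟨h1, h2, h3⟩ := h.1 q hq
    refine ⟨fun a => h1 _, fun a b c => h2 _ _ _, fun a b hab => h3 _ _ ?_⟩
    intro he
    exact hab (σ.symm.injective he)
  · rintro r ⟨q, hq, rfl⟩ s ⟨q', hq', rfl⟩ t ⟨q'', hq'', rfl⟩ a b c hc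
    exact h.2 q hq q' hq' q'' hq'' (σ.symm a) (σ.symm b) (σ.symm c) hc

theorem exists_max {n : ℕ} (C : Set (Fin n → Fin n → Prop)) (hC : IsCD C) :
    ∃ D, IsMaxCD D ∧ C ⊆ D := by
  obtain ⟨D, hD, hmax⟩ := Set.exists_max_image
    {D : Set (Fin n → Fin n → Prop) | IsCD D ∧ C ⊆ D} Set.ncard (Set.toFinite _)
    ⟨C, hC, subset_rfl⟩
  refine ⟨D, ⟨hD.1, ?_⟩, hD.2⟩
  intro T hT hDT
  have h1 := hmax T ⟨hT, hD.2.trans hDT⟩
  exact (Set.eq_of_subset_of_ncard_le hDT h1 (Set.toFinite _)).symm.subset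

theorem ncard_cls {n : ℕ} (S : Set (Fin n → Fin n → Prop)) : (cls S).ncard ≤ n.factorial := by
  have h1 : cls S = (fun σ : Fin n ≃ Fin n => tr σ '' S) '' Set.univ := by
    ext T
    constructor
    · rintro ⟨σ, hσ⟩
      exact ⟨σ, trivial, hσ.symm⟩
    · rintro ⟨σ, -, hσ⟩
      exact ⟨σ, hσ.symm⟩
  rw [h1]
  refine (Set.ncard_image_le (Set.toFinite _)).trans ?_
  rw [Set.ncard_univ, Nat.card_eq_fintype_card]
  have h2 : Fintype.card (Fin n ≃ Fin n) = n.factorial := by
    have := Fintype.card_perm (α := Fin n)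
    rw [Fintype.card_fin] at this
    exact this
  exact h2.le

theorem ncard_max (n : ℕ) :
    ({S : Set (Fin n → Fin n → Prop) | IsMaxCD S}).ncard ≤ m n * n.factorial := by
  classical
  have hfin1 : (mCls n).Finite := Set.toFinite _
  have hfin2 : ({S : Set (Fin n → Fin n → Prop) | IsMaxCD S}).Finite := Set.toFinite _
  rw [Set.ncard_eq_toFinset_card _ hfin2]
  have hsub : hfin2.toFinset ⊆
      hfin1.toFinset.biUnion (fun K => (Set.toFinite K).toFinset) := by
    intro S hS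
    rw [Set.Finite.mem_toFinset] at hS
    rw [Finset.mem_biUnion]
    refine ⟨cls S, ?_, ?_⟩
    · rw [Set.Finite.mem_toFinset]
      exact ⟨S, hS, rfl⟩
    · rw [Set.Finite.mem_toFinset]
      refine ⟨Equiv.refl _, ?_⟩
      have h1 : tr (Equiv.refl (Fin n)) = (id : (Fin n → Fin n → Prop) → _) := by
        funext r x y
        rfl
      rw [h1, Set.image_id]
  refine (Finset.card_le_card hsub).trans ?_
  have h2 : m n = hfin1.toFinset.card := Set.ncard_eq_toFinset_card _ hfin1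
  rw [h2]
  refine Finset.card_biUnion_le_card_mul _ _ _ ?_
  intro K hK
  rw [Set.Finite.mem_toFinset] at hK
  obtain ⟨S, -, rfl⟩ := hK
  rw [← Set.ncard_eq_toFinset_card]
  exact ncard_cls S

end ModLOW

open ModLOW

theorem low (h : StmFAM) : StmLOW := by
  classical
  intro M J
  have hcard : Fintype.card (Alt M J) = Fintype.card (Fin (M + 2 * J)) := by
    simp [Alt, mul_comm]
  let e : Alt M J ≃ Fin (M + 2 * J) := Fintype.equivOfCardEq hcard
  have hex : ∀ s : Fin M → Fin J → Bool, ∃ D : Set (Fin (M + 2 * J) → Fin (M + 2 * J) → Prop),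
      IsMaxCD D ∧ tr e '' fam s ⊆ D := fun s => exists_max _ (isCD_tr e _ (h M J s))
  choose D hD1 hD2 using hex
  -- the key contradiction
  have key : ∀ (s t : Fin M → Fin J → Bool) (i : Fin M) (j : Fin J), s i j = false →
      t i j = true → D s ≠ D t := by
    intro s t i j hs ht hst
    have m1 : tr e (ofRk (rkM i j false)) ∈ D s :=
      hD2 s ⟨_, Or.inr ⟨i, j, by rw [hs]⟩, rfl⟩
    have m2 : tr e (ofRk (rkM i j true)) ∈ D s := by
      rw [hst]
      exact hD2 t ⟨_, Or.inr ⟨i, j, by rw [ht]⟩, rfl⟩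
    have m3 : tr e (ofRk (rkB j false)) ∈ D s :=
      hD2 s ⟨_, Or.inl ⟨j, false, rfl⟩, rfl⟩
    refine (hD1 s).1.2 _ m1 _ m2 _ m3 (e (Sum.inr (j, false))) (e (Sum.inr (j, true)))
      (e (Sum.inl i)) ?_
    have hi := i.isLt
    simp only [tr, ofRk, rkM, rkB, Equiv.symm_apply_apply, if_true]
    refine ⟨⟨?_, ?_⟩, ⟨?_, ?_⟩, ⟨?_, ?_⟩⟩ <;> simp
  have hinj : Function.Injective D := by
    intro s t hst
    funext i j
    by_contra hne
    cases hs : s i j <;> cases ht : t i j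
    · exact hne (by rw [hs, ht])
    · exact key s t i j hs ht hst
    · exact key t s i j ht hs hst.symm
    · exact hne (by rw [hs, ht])
  have h1 : 2 ^ (M * J) = (Set.range D).ncard := by
    rw [← Set.image_univ, Set.ncard_image_of_injective _ hinj, Set.ncard_univ,
      Nat.card_eq_fintype_card]
    simp only [Fintype.card_pi, Fintype.card_bool, Finset.prod_const, Finset.card_univ,
      Fintype.card_fin]
    rw [← pow_mul, mul_comm]
  rw [h1]
  refine le_trans (Set.ncard_le_ncard ?_ (Set.toFinite _)) (ncard_max (M + 2 * J))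
  rintro _ ⟨s, rfl⟩
  exact hD1 s

end Pool.Agent.T6.H87.CDL
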