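import Pool.Agent.T6.H87.CDL.Defs

/-! Project CDL: module NUM. -/

set_option autoImplicit false

namespace Pool.Agent.T6.H87.CDL

open Finset

theorem num : StmNUM := by
  intro m r hC hL hU N hN
  by_contra hcon
  push Not at hcon
  set T : ℕ := 1000 * N ^ 2 with hT
  have hN2 : 1 ≤ N ^ 2 := Nat.one_le_pow _ _ hN
  have hNN : N ≤ N ^ 2 := by nlinarith
  have hT1 : 1000 ≤ T := by omega
  set A : ℕ := T ^ 2 * 2 ^ N ^ 2 with hA
  set L : ℕ := A * 2 ^ (3 * N ^ 2) with hLdef
  have hA0 : 1 ≤ A := Nat.one_le_iff_ne_zero.2 (by positivity)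
  have hL0 : 1 ≤ L := Nat.one_le_iff_ne_zero.2 (by positivity)
  have claim : ∀ n, 2 ≤ n → n ≤ T → A * n * m n ≤ L ^ (n - 1) := by
    intro n
    induction n using Nat.strong_induction_on with
    | _ n ih =>
      intro h2 hnT
      rcases lt_or_ge n N with hlt | hge
      · have h3 : n ^ 3 ≤ 2 * N ^ 2 * (n - 1) := by
          have h4 : n ^ 2 ≤ N ^ 2 := Nat.pow_le_pow_left hlt.le 2
          have h5 : n ≤ 2 * (n - 1) := by omega
          calc n ^ 3 = n ^ 2 * n := by ring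
            _ ≤ N ^ 2 * (2 * (n - 1)) := Nat.mul_le_mul h4 h5
            _ = 2 * N ^ 2 * (n - 1) := by ring
        have h4 : n ≤ 2 ^ (N ^ 2 * (n - 1)) := by
          have h5 : n ≤ N ^ 2 * (n - 1) := by
            have h6 : N ^ 2 * 1 ≤ N ^ 2 * (n - 1) := Nat.mul_le_mul_left _ (by omega)
            omega
          exact h5.trans (Nat.lt_two_pow_self).le
        have h5 : L ^ (n - 1) = A ^ (n - 1) * 2 ^ (3 * N ^ 2 * (n - 1)) := by
          rw [hLdef, mul_pow, ← pow_mul]
        have h6 : A ≤ A ^ (n - 1) := Nat.le_self_pow (by omega) A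
        calc A * n * m n ≤ A * 2 ^ (N ^ 2 * (n - 1)) * 2 ^ (2 * N ^ 2 * (n - 1)) := by
              refine Nat.mul_le_mul (Nat.mul_le_mul_left _ h4) ?_
              exact (hU n).trans (Nat.pow_le_pow_right (by norm_num) h3)
          _ = A * 2 ^ (3 * N ^ 2 * (n - 1)) := by
              rw [mul_assoc, ← pow_add]
              congr 2
              ring
          _ ≤ A ^ (n - 1) * 2 ^ (3 * N ^ 2 * (n - 1)) := Nat.mul_le_mul_right _ h6
          _ = L ^ (n - 1) := h5.symm
      · have h3 : m n ≤ 2 ^ N ^ 2 * r n := (hcon n hge hnT).le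
        have h4 : A * A * (∑ k ∈ Finset.Ico 2 n, (n - k + 1) * m (n - k + 1) * m k) ≤
            n * L ^ (n - 1) := by
          rw [Finset.mul_sum]
          have h5 : ∀ k ∈ Finset.Ico 2 n,
              A * A * ((n - k + 1) * m (n - k + 1) * m k) ≤ L ^ (n - 1) := by
            intro k hk
            rw [Finset.mem_Ico] at hk
            have h6 := ih (n - k + 1) (by omega) (by omega) (by omega)
            have h7 := ih k (by omega) hk.1 (by omega)
            have h8 : A * m k ≤ L ^ (k - 1) := by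
              refine le_trans ?_ h7
              have : A * m k * 1 ≤ A * m k * k := Nat.mul_le_mul_left _ (by omega)
              calc A * m k = A * m k * 1 := (mul_one _).symm
                _ ≤ A * m k * k := this
                _ = A * k * m k := by ring
            have h9 : L ^ (n - 1) = L ^ (n - k + 1 - 1) * L ^ (k - 1) := by
              rw [← pow_add]
              congr 1
              omega
            rw [h9]
            calc A * A * ((n - k + 1) * m (n - k + 1) * m k)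
                = (A * (n - k + 1) * m (n - k + 1)) * (A * m k) := by ring
              _ ≤ L ^ (n - k + 1 - 1) * L ^ (k - 1) := Nat.mul_le_mul h6 h8
          refine (Finset.sum_le_card_nsmul _ _ _ h5).trans ?_
          rw [Nat.card_Ico, smul_eq_mul]
          exact Nat.mul_le_mul_right _ (by omega)
        have h5 : A * (A * n * m n) ≤ A * L ^ (n - 1) := by
          calc A * (A * n * m n) ≤ A * (A * n * (2 ^ N ^ 2 * r n)) :=
                Nat.mul_le_mul_left _ (Nat.mul_le_mul_left _ h3)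
            _ ≤ A * (A * n * (2 ^ N ^ 2 *
                  ∑ k ∈ Finset.Ico 2 n, (n - k + 1) * m (n - k + 1) * m k)) :=
                Nat.mul_le_mul_left _ (Nat.mul_le_mul_left _ (Nat.mul_le_mul_left _ (hC n)))
            _ = n * 2 ^ N ^ 2 *
                  (A * A * ∑ k ∈ Finset.Ico 2 n, (n - k + 1) * m (n - k + 1) * m k) := by ring
            _ ≤ n * 2 ^ N ^ 2 * (n * L ^ (n - 1)) := Nat.mul_le_mul_left _ h4
            _ = n ^ 2 * 2 ^ N ^ 2 * L ^ (n - 1) := by ring
            _ ≤ T ^ 2 * 2 ^ N ^ 2 * L ^ (n - 1) :=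
                Nat.mul_le_mul_right _ (Nat.mul_le_mul_right _ (Nat.pow_le_pow_left hnT 2))
            _ = A * L ^ (n - 1) := by rw [hA]
        exact Nat.le_of_mul_le_mul_left h5 (by omega)
  have h1 := hL (500 * N ^ 2) (250 * N ^ 2)
  have h2 : 500 * N ^ 2 + 2 * (250 * N ^ 2) = T := by rw [hT]; ring
  have h3 : 500 * N ^ 2 * (250 * N ^ 2) = 125 * N ^ 2 * T := by rw [hT]; ring
  rw [h2, h3] at h1
  have h4 : m T ≤ L ^ T := by
    have h5 := claim T (by omega) le_rfl
    calc m T = 1 * m T := (one_mul _).symm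
      _ ≤ A * T * m T := Nat.mul_le_mul_right _ (Nat.one_le_iff_ne_zero.2 (by positivity))
      _ ≤ L ^ (T - 1) := h5
      _ ≤ L ^ T := Nat.pow_le_pow_right hL0 (by omega)
  have h5 : T.factorial ≤ T ^ T := Nat.factorial_le_pow T
  have h6 : (2 ^ (125 * N ^ 2)) ^ T ≤ (L * T) ^ T := by
    rw [← pow_mul, mul_pow]
    exact h1.trans (Nat.mul_le_mul h4 h5)
  have h7 : 2 ^ (125 * N ^ 2) ≤ L * T := by
    by_contra h
    push Not at h
    have := Nat.pow_lt_pow_left h (show T ≠ 0 by omega)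
    omega
  have h8 : L * T = T ^ 3 * 2 ^ (4 * N ^ 2) := by
    rw [hLdef, hA]
    have : 2 ^ (4 * N ^ 2) = 2 ^ N ^ 2 * 2 ^ (3 * N ^ 2) := by
      rw [← pow_add]; congr 1; ring
    rw [this]
    ring
  have h9 : T ^ 3 < 2 ^ (33 * N ^ 2) := by
    have e1 : N ^ 2 ≤ 2 ^ N ^ 2 := (Nat.lt_two_pow_self).le
    have e2 : (N ^ 2) ^ 3 ≤ (2 ^ N ^ 2) ^ 3 := Nat.pow_le_pow_left e1 3
    have e3 : (2 : ℕ) ^ 30 ≤ 2 ^ (30 * N ^ 2) :=
      Nat.pow_le_pow_right (by norm_num) (by omega)
    have e4 : T ^ 3 = 1000000000 * (N ^ 2) ^ 3 := by rw [hT]; ring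
    have e5 : 2 ^ (33 * N ^ 2) = 2 ^ (30 * N ^ 2) * (2 ^ N ^ 2) ^ 3 := by
      rw [← pow_mul, ← pow_add]; congr 1; ring
    rw [e4, e5]
    have e6 : (0 : ℕ) < (2 ^ N ^ 2) ^ 3 := by positivity
    calc 1000000000 * (N ^ 2) ^ 3 ≤ 1000000000 * (2 ^ N ^ 2) ^ 3 := Nat.mul_le_mul_left _ e2
      _ < 2 ^ 30 * (2 ^ N ^ 2) ^ 3 := Nat.mul_lt_mul_of_pos_right (by norm_num) e6
      _ ≤ 2 ^ (30 * N ^ 2) * (2 ^ N ^ 2) ^ 3 := Nat.mul_le_mul_right _ e3
  have h10 : L * T < 2 ^ (125 * N ^ 2) := by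
    rw [h8]
    calc T ^ 3 * 2 ^ (4 * N ^ 2) < 2 ^ (33 * N ^ 2) * 2 ^ (4 * N ^ 2) :=
          Nat.mul_lt_mul_of_pos_right h9 (by positivity)
      _ = 2 ^ (37 * N ^ 2) := by rw [← pow_add]; congr 1; ring
      _ ≤ 2 ^ (125 * N ^ 2) := Nat.pow_le_pow_right (by norm_num) (by omega)
  omega

end Pool.Agent.T6.H87.CDL
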