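import Pool.Agent.T6.H87.CDL.Defs

/-!
# Project CDL, module UP: `m n ≤ 2 ^ n ^ 3`
-/

set_option autoImplicit false

namespace Pool.Agent.T6.H87.CDL

/-- the triples listed in this order by some member of `S` -/
def pats {α : Type} (S : Set (α → α → Prop)) : Set (α × α × α) :=
  {x | ∃ q ∈ S, q x.1 x.2.1 ∧ q x.2.1 x.2.2}

lemma pats_sub {α : Type} {S T : Set (α → α → Prop)} (hS : IsMaxCD S) (hT : IsCD T)
    (h : pats T ⊆ pats S) : T ⊆ S := by
  intro p hp
  have hins : IsCD (insert p S) := by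
    refine ⟨?_, ?_⟩
    · intro r hr
      rcases hr with rfl | hr
      · exact hT.1 _ hp
      · exact hS.1.1 r hr
    · have key : ∀ r ∈ insert p S, ∀ a b c : α, r a b → r b c →
          ∃ r' ∈ S, r' a b ∧ r' b c := by
        intro r hr a b c h1 h2
        rcases hr with rfl | hr
        · exact h (show (a, b, c) ∈ pats T from ⟨r, hp, h1, h2⟩)
        · exact ⟨r, hr, h1, h2⟩
      rintro r hr s hs t ht a b c ⟨⟨h1, h2⟩, ⟨h3, h4⟩, h5, h6⟩
      obtain ⟨r', hr', e1, e2⟩ := key r hr a b c h1 h2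
      obtain ⟨s', hs', e3, e4⟩ := key s hs b c a h3 h4
      obtain ⟨t', ht', e5, e6⟩ := key t ht c a b h5 h6
      exact hS.1.2 r' hr' s' hs' t' ht' a b c ⟨⟨e1, e2⟩, ⟨e3, e4⟩, e5, e6⟩
  exact hS.2 _ hins (Set.subset_insert p S) (Set.mem_insert p S)

lemma pats_inj {α : Type} :
    Set.InjOn (pats : Set (α → α → Prop) → Set (α × α × α)) {S | IsMaxCD S} := by
  intro S hS T hT h
  exact Set.Subset.antisymm (pats_sub hT hS.1 h.le) (pats_sub hS hT.1 h.ge)

theorem up : StmUP := by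
  intro n
  have h1 : mCls n = cls '' {S : Set (Fin n → Fin n → Prop) | IsMaxCD S} := by
    ext K
    constructor
    · rintro ⟨S, hS, rfl⟩
      exact ⟨S, hS, rfl⟩
    · rintro ⟨S, hS, rfl⟩
      exact ⟨S, hS, rfl⟩
  have h2 : (mCls n).ncard ≤ {S : Set (Fin n → Fin n → Prop) | IsMaxCD S}.ncard := by
    rw [h1]
    exact Set.ncard_image_le (Set.toFinite _)
  have h3 : {S : Set (Fin n → Fin n → Prop) | IsMaxCD S}.ncard ≤
      (Set.univ : Set (Set (Fin n × Fin n × Fin n))).ncard :=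
    Set.ncard_le_ncard_of_injOn pats (fun _ _ => Set.mem_univ _) pats_inj (Set.toFinite _)
  have h4 : (Set.univ : Set (Set (Fin n × Fin n × Fin n))).ncard = 2 ^ n ^ 3 := by
    rw [Set.ncard_univ, Nat.card_eq_fintype_card, Fintype.card_set]
    simp only [Fintype.card_prod, Fintype.card_fin]
    congr 1
    ring
  calc m n = (mCls n).ncard := rfl
    _ ≤ _ := h2
    _ ≤ _ := h3
    _ = _ := h4

end Pool.Agent.T6.H87.CDL
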