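import Mathlib

/-!
# Project CDL (helper87): reducible maximal Condorcet domains, definitions and module statements

A linear order on `α` is coded by the relation `r a b`: `a` is above `b`.
-/

set_option autoImplicit false

namespace Pool.Agent.T6.H87.CDL

open Finset

/-- `r` is a (strict) linear order -/
def Lin {α : Type} (r : α → α → Prop) : Prop :=
  (∀ a, ¬ r a a) ∧ (∀ a b c, r a b → r b c → r a c) ∧ ∀ a b, a ≠ b → r a b ∨ r b a

/-- `S` is a Condorcet domain: a set of linear orders such that no three of them list three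
alternatives as `a b c`, `b c a`, `c a b` -/
def IsCD {α : Type} (S : Set (α → α → Prop)) : Prop :=
  (∀ r ∈ S, Lin r) ∧ ∀ r ∈ S, ∀ s ∈ S, ∀ t ∈ S, ∀ a b c : α,
    ¬ ((r a b ∧ r b c) ∧ (s b c ∧ s c a) ∧ (t c a ∧ t a b))

/-- `S` is a maximal Condorcet domain -/
def IsMaxCD {α : Type} (S : Set (α → α → Prop)) : Prop :=
  IsCD S ∧ ∀ T : Set (α → α → Prop), IsCD T → S ⊆ T → T ⊆ S

/-- renaming of the alternatives -/
def tr {α β : Type} (σ : α ≃ β) (r : α → α → Prop) : β → β → Prop :=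
  fun x y => r (σ.symm x) (σ.symm y)

/-- `T` is obtained from `S` by renaming the alternatives -/
def Iso {α β : Type} (S : Set (α → α → Prop)) (T : Set (β → β → Prop)) : Prop :=
  ∃ σ : α ≃ β, T = tr σ '' S

/-- `B` is a block of consecutive elements in every order of `S` -/
def Block {α : Type} (S : Set (α → α → Prop)) (B : Set α) : Prop :=
  ∀ r ∈ S, ∀ a ∈ B, ∀ b ∈ B, ∀ x, x ∉ B → ¬ (r a x ∧ r x b)

/-- some proper subset with at least two elements is a block of consecutive elements in every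
order of `S` -/
def Reducible {α : Type} (S : Set (α → α → Prop)) : Prop :=
  ∃ B : Set α, B ≠ Set.univ ∧ B.Nontrivial ∧ Block S B

/-- the isomorphism class of `S` -/
def cls {n : ℕ} (S : Set (Fin n → Fin n → Prop)) : Set (Set (Fin n → Fin n → Prop)) :=
  {T | Iso S T}

/-- the isomorphism classes of the maximal Condorcet domains of degree `n` -/
def mCls (n : ℕ) : Set (Set (Set (Fin n → Fin n → Prop))) := {K | ∃ S, IsMaxCD S ∧ K = cls S}

/-- the isomorphism classes of the reducible maximal Condorcet domains of degree `n` -/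
def rCls (n : ℕ) : Set (Set (Set (Fin n → Fin n → Prop))) :=
  {K | ∃ S, IsMaxCD S ∧ Reducible S ∧ K = cls S}

/-- the number `m_n` -/
noncomputable def m (n : ℕ) : ℕ := (mCls n).ncard

/-- the number `r_n` -/
noncomputable def r (n : ℕ) : ℕ := (rCls n).ncard

/-- the order `s` put in the place of `x` in the order `q` -/
def sub {α β : Type} (x : α) (q : α → α → Prop) (s : β → β → Prop) :
    ({a : α // a ≠ x} ⊕ β) → ({a : α // a ≠ x} ⊕ β) → Prop
  | .inl a, .inl b => q a b
  | .inl a, .inr _ => q a x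
  | .inr _, .inl b => q x b
  | .inr u, .inr v => s u v

/-- all orders of `T` put in the place of `x` in all orders of `S` -/
def subst {α β : Type} (x : α) (S : Set (α → α → Prop)) (T : Set (β → β → Prop)) :
    Set (({a : α // a ≠ x} ⊕ β) → ({a : α // a ≠ x} ⊕ β) → Prop) :=
  {p | ∃ q ∈ S, ∃ s ∈ T, p = sub x q s}

/-- the restrictions of the orders of `S` to the alternatives in `A` -/
def restr {α : Type} (A : Set α) (S : Set (α → α → Prop)) : Set (A → A → Prop) :=
  {p | ∃ q ∈ S, p = fun u v : A => q u v}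

/-- the alternatives of the family: `z_i` and the pairs `a_j = (j, false)`, `b_j = (j, true)` -/
abbrev Alt (M J : ℕ) : Type := Fin M ⊕ (Fin J × Bool)

/-- rank of the orders `c_{j,β}`: all `z` on top in the natural order, then the pair `j`
(`a_j b_j` if `β = false`, `b_j a_j` if `β = true`), then all other pairs in the natural order -/
def rkB {M J : ℕ} (j : Fin J) (β : Bool) : Alt M J → ℕ
  | .inl z => 2 * z
  | .inr (k, t) => if k = j then (if t = β then 2 * M else 2 * M + 2)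
      else 2 * M + 4 + 4 * k + (if t then 2 else 0)

/-- rank of the order with `z_i` moved: `a_j b_j z_i` (`β = false`) or `b_j z_i a_j` (`β = true`),
after all other `z` and before all other pairs -/
def rkM {M J : ℕ} (i : Fin M) (j : Fin J) (β : Bool) : Alt M J → ℕ
  | .inl z => if z = i then (if β then 2 * M + 1 else 2 * M + 3) else 2 * z
  | .inr (k, t) => if k = j then (if t = β then 2 * M else 2 * M + 2)
      else 2 * M + 4 + 4 * k + (if t then 2 else 0)

/-- the order with the given ranks, smaller ranks on top -/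
def ofRk {α : Type} (f : α → ℕ) : α → α → Prop := fun u v => f u < f v

/-- the family of Condorcet domains -/
def fam {M J : ℕ} (s : Fin M → Fin J → Bool) : Set (Alt M J → Alt M J → Prop) :=
  {p | (∃ j β, p = ofRk (rkB j β)) ∨ ∃ i j, p = ofRk (rkM i j (s i j))}

/-- SUB -/
def StmSUB : Prop := ∀ (α β : Type) (x : α) (S : Set (α → α → Prop)) (T : Set (β → β → Prop)),
  IsCD S → IsCD T → IsCD (subst x S T)

/-- DEC -/
def StmDEC : Prop := ∀ (α : Type) (S : Set (α → α → Prop)), Finite α → IsMaxCD S →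
  ∀ B : Set α, B ≠ Set.univ → Block S B → ∀ (b : α) (hb : b ∈ B),
    IsMaxCD (restr {a | a ∉ B ∨ a = b} S) ∧ IsMaxCD (restr B S) ∧
      Iso (subst (⟨b, Or.inr rfl⟩ : {a | a ∉ B ∨ a = b}) (restr {a | a ∉ B ∨ a = b} S)
        (restr B S)) S

/-- CNT -/
def StmCNT : Prop := ∀ n : ℕ, r n ≤ ∑ k ∈ Finset.Ico 2 n, (n - k + 1) * m (n - k + 1) * m k

/-- FAM -/
def StmFAM : Prop := ∀ (M J : ℕ) (s : Fin M → Fin J → Bool), IsCD (fam s)

/-- LOW -/
def StmLOW : Prop := ∀ M J : ℕ, 2 ^ (M * J) ≤ m (M + 2 * J) * (M + 2 * J).factorial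

/-- UP -/
def StmUP : Prop := ∀ n : ℕ, m n ≤ 2 ^ n ^ 3

/-- NUM -/
def StmNUM : Prop := ∀ m r : ℕ → ℕ,
  (∀ n, r n ≤ ∑ k ∈ Finset.Ico 2 n, (n - k + 1) * m (n - k + 1) * m k) →
  (∀ M J, 2 ^ (M * J) ≤ m (M + 2 * J) * (M + 2 * J).factorial) →
  (∀ n, m n ≤ 2 ^ n ^ 3) →
  ∀ N : ℕ, 1 ≤ N → ∃ n, N ≤ n ∧ n ≤ 1000 * N ^ 2 ∧ 2 ^ N ^ 2 * r n ≤ m n

/-- the final statement -/
def StmEND : Prop := ∀ N : ℕ, 1 ≤ N → ∃ n, N ≤ n ∧ n ≤ 1000 * N ^ 2 ∧ 2 ^ N ^ 2 * r n ≤ m n

theorem assembly (h1 : StmSUB → StmDEC) (h2 : StmSUB → StmDEC → StmCNT) (h3 : StmFAM)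
    (h4 : StmFAM → StmLOW) (h5 : StmUP) (h6 : StmNUM) (h7 : StmSUB) : StmEND :=
  h6 m r (h2 h7 (h1 h7)) (h4 h3) h5

end Pool.Agent.T6.H87.CDL
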