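import Pool.Agent.T6.H87.CDL.Defs

/-! Project CDL, module SUB: substitution of Condorcet domains. -/

namespace Pool.Agent.T6.H87.CDL

theorem lin_sub {α β : Type} {x : α} {q : α → α → Prop} {s : β → β → Prop} (hq : Lin q)
    (hs : Lin s) : Lin (sub x q s) := by
  obtain ⟨q1, q2, q3⟩ := hq
  obtain ⟨s1, s2, s3⟩ := hs
  refine ⟨?_, ?_, ?_⟩
  · rintro (a | a) h
    · exact q1 _ h
    · exact s1 _ h
  · rintro (a | a) (b | b) (c | c) h1 h2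
    · exact q2 _ _ _ h1 h2
    · exact q2 _ _ _ h1 h2
    · exact q2 _ _ _ h1 h2
    · exact h1
    · exact q2 _ _ _ h1 h2
    · exact absurd (q2 _ _ _ h1 h2) (q1 _)
    · exact h2
    · exact s2 _ _ _ h1 h2
  · rintro (a | a) (b | b) hab
    · exact q3 _ _ fun h => hab (by rw [Subtype.ext h])
    · exact q3 _ _ a.2
    · exact q3 _ _ (Ne.symm b.2)
    · exact s3 _ _ fun h => hab (by rw [h])

theorem sub_cd : StmSUB := by
  intro α β x S T hS hT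
  refine ⟨?_, ?_⟩
  · rintro p ⟨q, hq, s, hs, rfl⟩
    exact lin_sub (hS.1 q hq) (hT.1 s hs)
  · rintro p1 ⟨q1, hq1, s1, hs1, rfl⟩ p2 ⟨q2, hq2, s2, hs2, rfl⟩ p3 ⟨q3, hq3, s3, hs3, rfl⟩ a b c h
    have i1 := hS.1 q1 hq1
    have i2 := hS.1 q2 hq2
    have i3 := hS.1 q3 hq3
    rcases a with a | a <;> rcases b with b | b <;> rcases c with c | c
    · exact hS.2 q1 hq1 q2 hq2 q3 hq3 _ _ _ h
    · exact hS.2 q1 hq1 q2 hq2 q3 hq3 _ _ _ h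
    · exact hS.2 q1 hq1 q2 hq2 q3 hq3 _ _ _ h
    · obtain ⟨-, -, h1, h2⟩ := h
      exact i3.1 _ (i3.2.1 _ _ _ h1 h2)
    · exact hS.2 q1 hq1 q2 hq2 q3 hq3 _ _ _ h
    · obtain ⟨⟨h1, h2⟩, -, -⟩ := h
      exact i1.1 _ (i1.2.1 _ _ _ h1 h2)
    · obtain ⟨-, ⟨h1, h2⟩, -⟩ := h
      exact i2.1 _ (i2.2.1 _ _ _ h1 h2)
    · exact hT.2 s1 hs1 s2 hs2 s3 hs3 _ _ _ h

end Pool.Agent.T6.H87.CDL
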